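import Mathlib
import Pool.Agent.W560.HP.Stm
import Pool.Agent.H298R2.Kuyk4
import Pool.Agent.H793R2.HilbFin
import Pool.Agent.H880R2.Hilb.E1

/-!
Finitely generated fields of characteristic zero are Hilbertian (subtask HP-FG).
-/

set_option autoImplicit false

namespace Pool.Agent.W583.HP

open Polynomial

section scale

variable {R : Type*} [CommRing R]

/-- Scaling by a unit preserves irreducibility. -/
lemma irreducible_scale (f : R[X]) (u v : R) (huv : u * v = 1) :
    Irreducible (scaleRoots f u) ↔ Irreducible f := by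
  have hinv : Invertible v := ⟨u, huv, by rw [mul_comm]; exact huv⟩
  have h1 : scaleRoots f u = C (u ^ f.natDegree) * f.comp (C v * X) := by
    ext i
    rw [coeff_scaleRoots, coeff_C_mul, comp_C_mul_X_coeff]
    by_cases hi : i ≤ f.natDegree
    · have h2 : u ^ f.natDegree * v ^ i = u ^ (f.natDegree - i) := by
        obtain ⟨e, he⟩ := Nat.exists_eq_add_of_le hi
        rw [he, Nat.add_sub_cancel_left, pow_add]
        calc u ^ i * u ^ e * v ^ i = (u * v) ^ i * u ^ e := by rw [mul_pow]; ring
          _ = u ^ e := by rw [huv, one_pow, one_mul]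
      rw [← h2]
      ring
    · rw [coeff_eq_zero_of_natDegree_lt (by omega)]
      ring
  have hu : IsUnit (C (u ^ f.natDegree) : R[X]) :=
    (isUnit_C).2 ((IsUnit.of_mul_eq_one _ huv).pow _)
  have h2 : f.comp (C v * X) = algEquivCMulXAddC v 0 f := by
    rw [algEquivCMulXAddC_apply, comp_eq_aeval, map_zero, add_zero]
  rw [h1, irreducible_isUnit_mul hu, h2]
  exact MulEquiv.irreducible_iff (algEquivCMulXAddC v 0)

end scale

section frac

variable {ι : Type} [Finite ι] {L : Type} [Field L] [Algebra (MvPolynomial ι ℚ) L]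
  [IsFractionRing (MvPolynomial ι ℚ) L]

/-- A polynomial over `L` with coefficients cleared. -/
lemma lift_poly (q : L[X]) (D : MvPolynomial ι ℚ)
    (h : ∀ j, algebraMap _ L D * q.coeff j ∈ Set.range (algebraMap (MvPolynomial ι ℚ) L)) :
    ∃ G : (MvPolynomial ι ℚ)[X], G.map (algebraMap _ L) = C (algebraMap _ L D) * q := by
  have h1 : C (algebraMap _ L D) * q ∈ lifts (algebraMap (MvPolynomial ι ℚ) L) := by
    rw [lifts_iff_coeff_lifts]
    intro j
    rw [coeff_C_mul]
    exact h j
  obtain ⟨G, hG⟩ := (mem_lifts _).1 h1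
  exact ⟨G, hG⟩

lemma exists_den (s : Finset L) : ∃ D : MvPolynomial ι ℚ, D ≠ 0 ∧
    ∀ a ∈ s, algebraMap _ L D * a ∈ Set.range (algebraMap (MvPolynomial ι ℚ) L) := by
  obtain ⟨b, hb⟩ := IsLocalization.exist_integer_multiples_of_finset
    (nonZeroDivisors (MvPolynomial ι ℚ)) s
  refine ⟨b, nonZeroDivisors.ne_zero b.2, fun a ha => ?_⟩
  obtain ⟨c, hc⟩ := hb a ha
  refine ⟨c, ?_⟩
  rw [hc, Algebra.smul_def]

lemma exists_den_poly (q : L[X]) : ∃ D : MvPolynomial ι ℚ, D ≠ 0 ∧
    ∀ j, algebraMap _ L D * q.coeff j ∈ Set.range (algebraMap (MvPolynomial ι ℚ) L) := by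
  classical
  obtain ⟨D, hD0, hD⟩ := exists_den (L := L) (ι := ι) (q.support.image q.coeff)
  refine ⟨D, hD0, fun j => ?_⟩
  by_cases hj : j ∈ q.support
  · exact hD _ (Finset.mem_image_of_mem _ hj)
  · rw [notMem_support_iff.1 hj, mul_zero]
    exact ⟨0, map_zero _⟩

lemma exists_den_poly2 (f : L[X][X]) : ∃ D : MvPolynomial ι ℚ, D ≠ 0 ∧
    ∀ i j, algebraMap _ L D * (f.coeff i).coeff j ∈
      Set.range (algebraMap (MvPolynomial ι ℚ) L) := by
  classical
  obtain ⟨D, hD0, hD⟩ := exists_den (L := L) (ι := ι)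
    (f.support.biUnion fun i => (f.coeff i).support.image (f.coeff i).coeff)
  refine ⟨D, hD0, fun i j => ?_⟩
  by_cases hi : i ∈ f.support
  · by_cases hj : j ∈ (f.coeff i).support
    · exact hD _ (Finset.mem_biUnion.2 ⟨i, hi, Finset.mem_image_of_mem _ hj⟩)
    · rw [notMem_support_iff.1 hj, mul_zero]
      exact ⟨0, map_zero _⟩
  · rw [notMem_support_iff.1 hi, coeff_zero, mul_zero]
    exact ⟨0, map_zero _⟩

/-- The rational function field is Hilbertian. -/
theorem hilb_frac (ι : Type) [Finite ι] (L : Type) [Field L] [Algebra (MvPolynomial ι ℚ) L]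
    [IsFractionRing (MvPolynomial ι ℚ) L] : W560.HP.HilbF L := by
  intro f hfm hfi _ g hg
  have hinj : Function.Injective (algebraMap (MvPolynomial ι ℚ) L) :=
    IsFractionRing.injective _ _
  obtain ⟨D, hD0, hD⟩ := exists_den_poly2 (ι := ι) f
  obtain ⟨D', hD'0, hD'⟩ := exists_den_poly (ι := ι) g
  have hDL : algebraMap _ L D ≠ 0 := fun h => hD0 (hinj (by rw [h, map_zero]))
  have hD'L : algebraMap _ L D' ≠ 0 := fun h => hD'0 (hinj (by rw [h, map_zero]))
  obtain ⟨G, hG⟩ := lift_poly g D' hD'
  set d : L := algebraMap _ L D with hd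
  have hdd : d * d⁻¹ = 1 := mul_inv_cancel₀ hDL
  have hCd : (C d : L[X]) * C d⁻¹ = 1 := by rw [← C_mul, hdd, C_1]
  -- the scaled polynomial
  have hsm : (scaleRoots f (C d)).Monic := (monic_scaleRoots_iff (C d)).2 hfm
  have hlift : scaleRoots f (C d) ∈ lifts (mapRingHom (algebraMap (MvPolynomial ι ℚ) L)) := by
    rw [lifts_iff_coeff_lifts]
    intro i
    have h1 : ∀ j, ((scaleRoots f (C d)).coeff i).coeff j ∈
        Set.range (algebraMap (MvPolynomial ι ℚ) L) := by
      intro j
      rw [coeff_scaleRoots, ← C_pow, coeff_mul_C]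
      rcases lt_trichotomy i f.natDegree with hi | hi | hi
      · obtain ⟨e, he⟩ := Nat.exists_eq_add_of_lt hi
        have h2 : f.natDegree - i = e + 1 := by omega
        obtain ⟨c, hc⟩ := hD i j
        refine ⟨c * D ^ e, ?_⟩
        rw [map_mul, hc, map_pow, h2, ← hd]
        ring
      · rw [hi, Nat.sub_self, pow_zero, mul_one, hfm.coeff_natDegree, coeff_one]
        split_ifs
        · exact ⟨1, map_one _⟩
        · exact ⟨0, map_zero _⟩
      · rw [coeff_eq_zero_of_natDegree_lt hi, coeff_zero, zero_mul]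
        exact ⟨0, map_zero _⟩
    have h3 : (scaleRoots f (C d)).coeff i ∈ lifts (algebraMap (MvPolynomial ι ℚ) L) := by
      rw [lifts_iff_coeff_lifts]
      exact h1
    obtain ⟨q, hq⟩ := (mem_lifts _).1 h3
    exact ⟨q, hq⟩
  obtain ⟨F, hF, -, hFm⟩ := lifts_and_natDegree_eq_and_monic hlift hsm
  have hFi : Irreducible F := by
    refine Polynomial.Monic.irreducible_of_irreducible_map
      (mapRingHom (algebraMap (MvPolynomial ι ℚ) L)) F hFm ?_
    rw [hF, irreducible_scale f (C d) (C d⁻¹) hCd]
    exact hfi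
  -- several variables
  let e : MvPolynomial (Option ι) ℚ ≃ₐ[ℚ] (MvPolynomial ι ℚ)[X] :=
    MvPolynomial.optionEquivLeft ℚ ι
  let es : (MvPolynomial ι ℚ)[X] ≃+* MvPolynomial (Option ι) ℚ := (e.symm : _ ≃+* _)
  have hes : ∀ p, e (es p) = p := fun p => e.apply_symm_apply p
  set H : (MvPolynomial (Option ι) ℚ)[X] := F.map (es : _ →+* _) with hH
  have hHm : H.Monic := hFm.map _
  have hHi : Irreducible H := by
    have h1 : H = mapEquiv es F := rfl
    rw [h1]
    exact (MulEquiv.irreducible_iff (mapEquiv es)).2 hFi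
  have hG0 : G ≠ 0 := by
    intro h0
    rw [h0, Polynomial.map_zero] at hG
    rcases mul_eq_zero.1 hG.symm with h1 | h1
    · exact hD'L (C_eq_zero.1 h1)
    · exact hg h1
  have hg' : es G ≠ 0 := fun h => hG0 (es.injective (by rw [h, map_zero]))
  obtain ⟨a, ha, hai⟩ := Pool.Agent.H298R2.Kuyk.hilbMv (Pool.Agent.H880R2.Hilb.taskE1) H hHm hHi
    (es G) hg'
  set b : ℚ := a none with hb
  set a' : ι → ℚ := fun i => a (some i) with ha'
  have haa : a = fun x => Option.elim x b a' := by
    funext x
    cases x <;> rfl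
  -- evaluation
  have hev : ∀ p : (MvPolynomial ι ℚ)[X], MvPolynomial.eval a (es p) =
      MvPolynomial.eval a' (p.eval (MvPolynomial.C b)) := by
    intro p
    have h1 := MvPolynomial.optionEquivLeft_elim_eval ℚ ι a' b (es p)
    rw [← haa] at h1
    have h2 : MvPolynomial.optionEquivLeft ℚ ι (es p) = p := hes p
    rw [h1, h2, eval_map]
    have h3 : MvPolynomial.eval a' (p.eval (MvPolynomial.C b)) =
        eval₂ (MvPolynomial.eval a') (MvPolynomial.eval a' (MvPolynomial.C b)) p :=
      Polynomial.hom_eval₂ p (RingHom.id _) (MvPolynomial.eval a') (MvPolynomial.C b)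
    rw [h3, MvPolynomial.eval_C]
  have hevr : (MvPolynomial.eval a).comp (es : (MvPolynomial ι ℚ)[X] →+* _) =
      (MvPolynomial.eval a').comp (evalRingHom (MvPolynomial.C b)) := by
    apply RingHom.ext
    intro p
    exact hev p
  set bL : L := algebraMap (MvPolynomial ι ℚ) L (MvPolynomial.C b) with hbL
  have hcomp : (evalRingHom bL).comp (mapRingHom (algebraMap (MvPolynomial ι ℚ) L)) =
      (algebraMap (MvPolynomial ι ℚ) L).comp (evalRingHom (MvPolynomial.C b)) := by
    apply Polynomial.ringHom_ext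
    · intro x
      simp
    · simp [hbL]
  refine ⟨bL, ?_, ?_⟩
  · intro h0
    apply ha
    rw [hev]
    have h1 : algebraMap _ L (G.eval (MvPolynomial.C b)) = 0 := by
      have h2 := congrArg (fun φ => φ G) hcomp
      change (G.map (algebraMap _ L)).eval bL = algebraMap _ L (G.eval (MvPolynomial.C b)) at h2
      rw [← h2, hG, eval_mul, h0, mul_zero]
    have h2 : G.eval (MvPolynomial.C b) = 0 := hinj (by rw [h1, map_zero])
    rw [h2, map_zero]
  · -- irreducibility over `ℚ[t]`
    set F1 : (MvPolynomial ι ℚ)[X] := F.map (evalRingHom (MvPolynomial.C b)) with hF1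
    have hF1m : F1.Monic := hFm.map _
    have hF1i : Irreducible F1 := by
      refine Polynomial.Monic.irreducible_of_irreducible_map (MvPolynomial.eval a') F1 hF1m ?_
      rw [hF1, Polynomial.map_map, ← hevr, ← Polynomial.map_map]
      exact hai
    have hF2 : Irreducible (F1.map (algebraMap (MvPolynomial ι ℚ) L)) :=
      (Polynomial.Monic.irreducible_iff_irreducible_map_fraction_map hF1m).1 hF1i
    have h3 : F1.map (algebraMap (MvPolynomial ι ℚ) L) =
        scaleRoots (f.map (evalRingHom bL)) d := by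
      rw [hF1, Polynomial.map_map, ← hcomp, ← Polynomial.map_map]
      have h4 : F.map (mapRingHom (algebraMap (MvPolynomial ι ℚ) L)) = scaleRoots f (C d) := hF
      rw [h4, Polynomial.map_scaleRoots]
      · simp
      · rw [hfm.leadingCoeff, map_one]
        exact one_ne_zero
    rw [h3, irreducible_scale _ d d⁻¹ hdd] at hF2
    exact hF2

end frac

/-- Finitely generated fields of characteristic zero are Hilbertian. -/
theorem fg : W560.HP.S_FG := by
  intro k _ _ S hS
  have halg : Algebra.IsAlgebraic (Algebra.adjoin ℚ (S : Set k)) k := by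
    refine ⟨fun x => ?_⟩
    have hx : x ∈ IntermediateField.adjoin ℚ (S : Set k) := by rw [hS]; trivial
    obtain ⟨r, hr, s, hs, hx'⟩ := (IntermediateField.mem_adjoin_iff_div (F := ℚ)).1 hx
    by_cases hs0 : s = 0
    · rw [hx', hs0, div_zero]
      exact isAlgebraic_zero
    · refine ⟨C (⟨s, hs⟩ : Algebra.adjoin ℚ (S : Set k)) * X - C ⟨r, hr⟩, ?_, ?_⟩
      · intro h0
        have h1 := congrArg (fun p => p.coeff 1) h0
        simp only [coeff_sub, coeff_C_mul, coeff_X_one, mul_one, coeff_C_succ, sub_zero,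
          coeff_zero] at h1
        exact hs0 (congrArg Subtype.val h1)
      · rw [map_sub, map_mul, aeval_X, aeval_C, aeval_C]
        change s * x - r = 0
        rw [hx', mul_div_cancel₀ _ hs0, sub_self]
  obtain ⟨u, huS, hu⟩ := exists_isTranscendenceBasis_subset (R := ℚ) (S : Set k)
  have hfin : Finite u := S.finite_toSet.subset huS
  let K2 : IntermediateField ℚ k := IntermediateField.adjoin ℚ (Set.range ((↑) : u → k))
  obtain ⟨e⟩ : Nonempty (FractionRing (MvPolynomial u ℚ) ≃+* K2) := by
    obtain ⟨eq, hm, ha, -⟩ := hu.1.aevalEquivField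
    exact ⟨RingEquiv.mk eq hm ha⟩
  have h1 : W560.HP.HilbF (FractionRing (MvPolynomial u ℚ)) := hilb_frac u _
  have h2 : W560.HP.HilbF K2 := by
    let _ : Algebra (FractionRing (MvPolynomial u ℚ)) K2 := (e : _ →+* K2).toAlgebra
    have h3 : FiniteDimensional (FractionRing (MvPolynomial u ℚ)) K2 :=
      Module.Finite.of_surjective (Algebra.linearMap (FractionRing (MvPolynomial u ℚ)) K2)
        e.surjective
    have h4 : CharZero (FractionRing (MvPolynomial u ℚ)) := algebraRat.charZero _
    exact Pool.Agent.H793R2.HilbFin.taskE2 (FractionRing (MvPolynomial u ℚ)) K2 h1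
  have h3 : Algebra.IsAlgebraic K2 k := hu.isAlgebraic_field
  have h4 : IntermediateField.adjoin K2 (S : Set k) = ⊤ := by
    apply top_unique
    intro x _
    have hx : x ∈ IntermediateField.adjoin ℚ (S : Set k) := by rw [hS]; trivial
    have hle : IntermediateField.adjoin ℚ (S : Set k) ≤
        (IntermediateField.adjoin K2 (S : Set k)).restrictScalars ℚ := by
      rw [IntermediateField.adjoin_le_iff]
      intro y hy
      exact IntermediateField.subset_adjoin K2 (S : Set k) hy
    exact hle hx
  have h5 : FiniteDimensional K2 k := by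
    have h6 : FiniteDimensional K2 (IntermediateField.adjoin K2 (S : Set k)) :=
      IntermediateField.finiteDimensional_adjoin fun x _ => (h3.isAlgebraic x).isIntegral
    rw [h4] at h6
    exact Module.Finite.equiv (IntermediateField.topEquiv (F := K2) (E := k)).toLinearEquiv
  exact Pool.Agent.H793R2.HilbFin.taskE2 K2 k h2

end Pool.Agent.W583.HP
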